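import Pool.Agent.Helper44.GF.Defs
import Pool.Agent.Helper67.LB.Two

/-!
# MP_d210aa_gt, module BALL: triangle inequality for the inverse of `Fq`
-/

set_option autoImplicit false

open Finset MeasureTheory Filter Topology
open scoped ENNReal ContDiff

namespace Pool.Agent.Helper44.GF

section

variable {n : ℕ} {Y ι : Type} [Fintype Y] [DecidableEq Y] [Fintype ι]

theorem ball_tau (d : ℝ) (r : Y → ℝ) (hd : 0 < d) (hr : ∀ y, 0 < r y)
    (η : Finset (Fin n × Y)) (i : Fin n) : 0 < tau d r η i := by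
  unfold tau
  have h : 0 ≤ ∑ y, (if (i, y) ∈ η then r y else 0) := by
    apply Finset.sum_nonneg
    intro y _
    split_ifs
    · exact (hr y).le
    · exact le_refl _
  linarith

theorem ball_pol_smul (S : ι → Finset (Fin n)) (w : ι → ℝ) (v : ℝ) (τ : Fin n → ℝ) :
    pol S (fun I => (v • w) I ^ 2) τ = v ^ 2 * pol S (fun I => w I ^ 2) τ := by
  unfold pol
  rw [Finset.mul_sum]
  apply Finset.sum_congr rfl
  intro I _
  show (v • w) I ^ 2 * ∏ i ∈ S I, τ i = v ^ 2 * (w I ^ 2 * ∏ i ∈ S I, τ i)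
  rw [Pi.smul_apply, smul_eq_mul]
  ring

theorem ball_pol_nonneg (S : ι → Finset (Fin n)) (w : ι → ℝ) (τ : Fin n → ℝ) (hτ : ∀ i, 0 < τ i) :
    0 ≤ pol S (fun I => w I ^ 2) τ := by
  unfold pol
  apply Finset.sum_nonneg
  intro I _
  exact mul_nonneg (sq_nonneg _) (Finset.prod_nonneg (fun i _ => (hτ i).le))

theorem ball_pol_pos (S : ι → Finset (Fin n)) (w : ι → ℝ) (hw : w ≠ 0) (τ : Fin n → ℝ)
    (hτ : ∀ i, 0 < τ i) : 0 < pol S (fun I => w I ^ 2) τ := by
  obtain ⟨I, hI⟩ := Function.ne_iff.mp hw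
  unfold pol
  apply Finset.sum_pos'
  · intro J _
    exact mul_nonneg (sq_nonneg _) (Finset.prod_nonneg (fun i _ => (hτ i).le))
  · refine ⟨I, Finset.mem_univ I, ?_⟩
    exact mul_pos (by
      have : w I ≠ 0 := hI
      positivity) (Finset.prod_pos (fun i _ => hτ i))

omit [Fintype Y] [DecidableEq Y] in
theorem ball_z (z : Y → ℝ) (hz : ∀ y, 0 < z y) (η : Finset (Fin n × Y)) : 0 < ∏ x ∈ η, z x.2 :=
  Finset.prod_pos (fun x _ => hz x.2)

theorem ball_Fq_zero (S : ι → Finset (Fin n)) (r z : Y → ℝ) (d : ℝ) : Fq S r z d 0 = 0 := by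
  unfold Fq
  apply Finset.sum_eq_zero
  intro η _
  have h : pol S (fun I => (0 : ι → ℝ) I ^ 2) (tau d r η) = 0 := by
    unfold pol
    apply Finset.sum_eq_zero
    intro I _
    simp
  rw [h, Real.zero_rpow (by norm_num), mul_zero]

theorem ball_Fq_nonneg (S : ι → Finset (Fin n)) (r z : Y → ℝ) (d : ℝ) (hd : 0 < d)
    (hr : ∀ y, 0 < r y) (hz : ∀ y, 0 < z y) (w : ι → ℝ) : 0 ≤ Fq S r z d w := by
  unfold Fq
  apply Finset.sum_nonneg
  intro η _
  exact mul_nonneg (ball_z z hz η).le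
    (Real.rpow_nonneg (ball_pol_nonneg S w _ (ball_tau d r hd hr η)) _)

theorem ball_Fq_pos (S : ι → Finset (Fin n)) (r z : Y → ℝ) (d : ℝ) (hd : 0 < d)
    (hr : ∀ y, 0 < r y) (hz : ∀ y, 0 < z y) (w : ι → ℝ) (hw : w ≠ 0) : 0 < Fq S r z d w := by
  unfold Fq
  apply Finset.sum_pos
  · intro η _
    exact mul_pos (ball_z z hz η)
      (Real.rpow_pos_of_pos (ball_pol_pos S w hw _ (ball_tau d r hd hr η)) _)
  · exact ⟨∅, Finset.mem_univ _⟩

theorem ball_Fq_half (S : ι → Finset (Fin n)) (r z : Y → ℝ) (d : ℝ) (hd : 0 < d)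
    (hr : ∀ y, 0 < r y) (w : ι → ℝ) : Fq S r z d ((1 / 2 : ℝ) • w) = 2 * Fq S r z d w := by
  unfold Fq
  rw [Finset.mul_sum]
  apply Finset.sum_congr rfl
  intro η _
  rw [ball_pol_smul, Real.mul_rpow (by norm_num) (ball_pol_nonneg S w _ (ball_tau d r hd hr η))]
  have h : ((1 / 2 : ℝ) ^ 2) ^ (-(1 / 2) : ℝ) = 2 := by
    rw [← Real.rpow_natCast, ← Real.rpow_mul (by norm_num)]
    norm_num
  rw [h]
  ring

theorem ball_GG (S : ι → Finset (Fin n)) (r z : Y → ℝ) (d : ℝ) (w : ι → ℝ) (v : ℝ) :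
    GG S r z d (v • w) = ∑ η : Finset (Fin n × Y), (∏ x ∈ η, z x.2) *
      Real.exp (-(pol S (fun I => w I ^ 2) (tau d r η)) * v ^ 2) := by
  unfold GG wt
  apply Finset.sum_congr rfl
  intro η _
  rw [ball_pol_smul]
  congr 2
  ring

/-- the integral of `GG` along a line -/
theorem ball_int (S : ι → Finset (Fin n)) (r z : Y → ℝ) (d : ℝ) (hd : 0 < d)
    (hr : ∀ y, 0 < r y) (hz : ∀ y, 0 < z y) (w : ι → ℝ) (hw : w ≠ 0) :
    ∫⁻ v : ℝ, ENNReal.ofReal (GG S r z d (v • w)) =
      ENNReal.ofReal (Real.sqrt Real.pi * Fq S r z d w) := by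
  have hq : ∀ η : Finset (Fin n × Y), 0 < pol S (fun I => w I ^ 2) (tau d r η) :=
    fun η => ball_pol_pos S w hw _ (ball_tau d r hd hr η)
  have hint : ∀ η ∈ (Finset.univ : Finset (Finset (Fin n × Y))),
      Integrable (fun v : ℝ => (∏ x ∈ η, z x.2) *
        Real.exp (-(pol S (fun I => w I ^ 2) (tau d r η)) * v ^ 2)) := by
    intro η _
    exact (integrable_exp_neg_mul_sq (hq η)).const_mul _
  have h1 : ∫ v : ℝ, GG S r z d (v • w) = Real.sqrt Real.pi * Fq S r z d w := by
    simp only [ball_GG]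
    rw [integral_finsetSum _ hint]
    unfold Fq
    rw [Finset.mul_sum]
    apply Finset.sum_congr rfl
    intro η _
    rw [integral_const_mul, integral_gaussian]
    have h2 : Real.sqrt (Real.pi / pol S (fun I => w I ^ 2) (tau d r η)) =
        Real.sqrt Real.pi * (pol S (fun I => w I ^ 2) (tau d r η)) ^ (-(1 / 2) : ℝ) := by
      rw [Real.sqrt_div Real.pi_pos.le, Real.rpow_neg (hq η).le, ← Real.sqrt_eq_rpow,
        div_eq_mul_inv]
    rw [h2]
    ring
  rw [← h1, ofReal_integral_eq_lintegral_ofReal]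
  · simp only [ball_GG]
    exact integrable_finsetSum _ hint
  · apply Filter.Eventually.of_forall
    intro v
    show 0 ≤ GG S r z d (v • w)
    rw [ball_GG]
    exact Finset.sum_nonneg (fun η _ => mul_nonneg (ball_z z hz η).le (Real.exp_pos _).le)

theorem ball_GG_pos (S : ι → Finset (Fin n)) (r z : Y → ℝ) (d : ℝ) (hz : ∀ y, 0 < z y)
    (w : ι → ℝ) : 0 < GG S r z d w := by
  unfold GG wt
  apply Finset.sum_pos
  · intro η _
    exact mul_pos (ball_z z hz η) (Real.exp_pos _)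
  · exact ⟨∅, Finset.mem_univ _⟩

end

theorem st_BALL (hL : ST_LOGC) : ST_BALL := by
  intro n m Y ι _ _ _ S r z d s hM w w'
  have hd := hM.hd
  have hr := hM.hr
  have hz := hM.hz
  have hnn := ball_Fq_nonneg S r z d hd hr hz
  by_cases hw : w = 0
  · rw [hw, zero_add, ball_Fq_zero, inv_zero, zero_add]
  by_cases hw' : w' = 0
  · rw [hw', add_zero, ball_Fq_zero, inv_zero, add_zero]
  by_cases hs : w + w' = 0
  · rw [hs, ball_Fq_zero, inv_zero]
    exact add_nonneg (inv_nonneg.mpr (hnn w)) (inv_nonneg.mpr (hnn w'))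
  have hF1 := ball_Fq_pos S r z d hd hr hz w hw
  have hF2 := ball_Fq_pos S r z d hd hr hz w' hw'
  have hF3 := ball_Fq_pos S r z d hd hr hz (w + w') hs
  have hpi : 0 < Real.sqrt Real.pi := Real.sqrt_pos.mpr Real.pi_pos
  have hcont : Continuous (fun p : ℝ × ℝ => GG S r z d (p.2 • w + p.1 • (w' - w))) := by
    unfold GG wt pol
    simp only [Pi.add_apply, Pi.smul_apply, Pi.sub_apply, smul_eq_mul]
    fun_prop
  have key := Pool.Agent.Helper67.LB.busemann_two
    (κ := fun y v => ENNReal.ofReal (GG S r z d (v • w + y • (w' - w))))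
    (ENNReal.measurable_ofReal.comp hcont.measurable)
    (fun y v => (ENNReal.ofReal_pos.mpr (ball_GG_pos S r z d hz _)).ne')
    (fun y v => ENNReal.ofReal_ne_top)
    (by
      intro a b ha hb hab y v y' v'
      have h1 := ball_GG_pos S r z d hz (v • w + y • (w' - w))
      have h2 := ball_GG_pos S r z d hz (v' • w + y' • (w' - w))
      rw [ENNReal.ofReal_rpow_of_pos h1, ENNReal.ofReal_rpow_of_pos h2,
        ← ENNReal.ofReal_mul (Real.rpow_nonneg h1.le _)]
      apply ENNReal.ofReal_le_ofReal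
      refine le_trans (hL n m Y ι S r z d s hM _ _ a b ha hb hab) (le_of_eq ?_)
      congr 1
      funext I
      simp only [Pi.add_apply, Pi.smul_apply, Pi.sub_apply, smul_eq_mul]
      ring)
    (by
      intro y v
      congr 1
      unfold GG
      congr 1
      funext η
      congr 1
      funext I
      simp only [Pi.add_apply, Pi.smul_apply, Pi.sub_apply, smul_eq_mul]
      ring)
    (l := 1 / 2) (m := 1 / 2) (by norm_num) (by norm_num) (by norm_num) 0 1
  have e1 : ∫⁻ v : ℝ, ENNReal.ofReal (GG S r z d (v • w + ((1 / 2 * 0 + 1 / 2 * 1) * v) • (w' - w)))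
      = ENNReal.ofReal (Real.sqrt Real.pi * (2 * Fq S r z d (w + w'))) := by
    rw [← ball_Fq_half S r z d hd hr (w + w'), ← ball_int S r z d hd hr hz]
    · apply lintegral_congr
      intro v
      congr 2
      funext I
      simp only [Pi.add_apply, Pi.smul_apply, Pi.sub_apply, smul_eq_mul]
      ring
    · exact smul_ne_zero (by norm_num) hs
  have e2 : ∫⁻ v : ℝ, ENNReal.ofReal (GG S r z d (v • w + (0 * v) • (w' - w)))
      = ENNReal.ofReal (Real.sqrt Real.pi * Fq S r z d w) := by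
    rw [← ball_int S r z d hd hr hz w hw]
    apply lintegral_congr
    intro v
    rw [zero_mul, zero_smul, add_zero]
  have e3 : ∫⁻ v : ℝ, ENNReal.ofReal (GG S r z d (v • w + (1 * v) • (w' - w)))
      = ENNReal.ofReal (Real.sqrt Real.pi * Fq S r z d w') := by
    rw [← ball_int S r z d hd hr hz w' hw']
    apply lintegral_congr
    intro v
    congr 2
    funext I
    simp only [Pi.add_apply, Pi.smul_apply, Pi.sub_apply, smul_eq_mul]
    ring
  rw [e1, e2, e3] at key
  rw [← ENNReal.ofReal_inv_of_pos (by positivity), ← ENNReal.ofReal_inv_of_pos (by positivity),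
    ← ENNReal.ofReal_inv_of_pos (by positivity), ← ENNReal.ofReal_mul (by norm_num),
    ← ENNReal.ofReal_mul (by norm_num), ← ENNReal.ofReal_add (by positivity) (by positivity),
    ENNReal.ofReal_le_ofReal_iff (by positivity)] at key
  have h2 : 0 < 2 * Real.sqrt Real.pi := by positivity
  have h3 := mul_le_mul_of_nonneg_left key h2.le
  have h4 : 2 * Real.sqrt Real.pi * (Real.sqrt Real.pi * (2 * Fq S r z d (w + w')))⁻¹ =
      (Fq S r z d (w + w'))⁻¹ := by
    field_simp
  have h5 : 2 * Real.sqrt Real.pi * (1 / 2 * (Real.sqrt Real.pi * Fq S r z d w)⁻¹ +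
      1 / 2 * (Real.sqrt Real.pi * Fq S r z d w')⁻¹) = (Fq S r z d w)⁻¹ + (Fq S r z d w')⁻¹ := by
    field_simp
  rw [h4, h5] at h3
  exact h3

end Pool.Agent.Helper44.GF
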